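import Pool.Agent.K1H70.KQ.Step3
import Pool.Agent.TH192.DT.Poles

set_option autoImplicit false

/-! # Path determinants of framed quivers: twisted topological zeta functions -/

namespace Pool.Agent.K1H70.KT

open Polynomial Pool.Agent.TH192.DT Pool.Agent.K1H70.KQ

/-- If `q` times the product of the factors with `e ∣ N_i` divides `b`, then `b` times the twisted
topological zeta function is `q` times a polynomial. -/
theorem twZ_mul {ι : Type} [Fintype ι] (e : ℕ) (ν N : ι → ℕ) (χ : Finset ι → ℤ) (q b : ℂ[X])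
    (hν : ∀ i, 0 < ν i) (hb : (∃ i, e ∣ N i) →
      (q * ∏ i ∈ Finset.univ.filter fun i => e ∣ N i, (C (N i : ℂ) * X + C (ν i : ℂ))) ∣ b) :
    ∃ P : ℂ[X], algebraMap ℂ[X] (RatFunc ℂ) b * twZ e ν N χ = algebraMap ℂ[X] (RatFunc ℂ) (q * P) := by
  classical
  by_cases hex : ∃ i, e ∣ N i
  · obtain ⟨r, hr⟩ := hb hex
    have h0 : ∀ i, ((N i : RatFunc ℂ) * RatFunc.X + (ν i : RatFunc ℂ)) =
        algebraMap ℂ[X] (RatFunc ℂ) (C (N i : ℂ) * X + C (ν i : ℂ)) := by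
      intro i
      simp
    have h1 : ∀ i, (C (N i : ℂ) * X + C (ν i : ℂ) : ℂ[X]) ≠ 0 := by
      intro i h
      have h2 := congrArg (Polynomial.eval 0) h
      simp only [eval_add, eval_mul, eval_C, eval_X, mul_zero, zero_add, eval_zero] at h2
      exact (hν i).ne' (by exact_mod_cast h2)
    refine ⟨∑ I ∈ Finset.univ.filter fun I : Finset ι => I.Nonempty ∧ ∀ i ∈ I, e ∣ N i,
      C ((χ I : ℤ) : ℂ) * ((∏ i ∈ (Finset.univ.filter fun i => e ∣ N i) \ I,
        (C (N i : ℂ) * X + C (ν i : ℂ))) * r), ?_⟩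
    rw [twZ, Finset.mul_sum, Finset.mul_sum, map_sum]
    refine Finset.sum_congr (by congr!) fun I hI => ?_
    have hI2 : I ⊆ Finset.univ.filter fun i => e ∣ N i := by
      intro i hi
      rw [Finset.mem_filter] at hI ⊢
      exact ⟨Finset.mem_univ _, hI.2.2 i hi⟩
    have h2 : (∏ i ∈ Finset.univ.filter (fun i => e ∣ N i), (C (N i : ℂ) * X + C (ν i : ℂ)) : ℂ[X]) =
        (∏ i ∈ (Finset.univ.filter fun i => e ∣ N i) \ I, (C (N i : ℂ) * X + C (ν i : ℂ))) *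
          ∏ i ∈ I, (C (N i : ℂ) * X + C (ν i : ℂ)) := (Finset.prod_sdiff hI2).symm
    have h3 : ∏ i ∈ I, ((N i : RatFunc ℂ) * RatFunc.X + (ν i : RatFunc ℂ))⁻¹ =
        (algebraMap ℂ[X] (RatFunc ℂ) (∏ i ∈ I, (C (N i : ℂ) * X + C (ν i : ℂ))))⁻¹ := by
      rw [map_prod, ← Finset.prod_inv_distrib]
      exact Finset.prod_congr rfl fun i _ => by rw [h0]
    have h4 : algebraMap ℂ[X] (RatFunc ℂ) (∏ i ∈ I, (C (N i : ℂ) * X + C (ν i : ℂ))) ≠ 0 := by
      rw [Ne, map_eq_zero_iff _ (IsFractionRing.injective ℂ[X] (RatFunc ℂ))]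
      exact Finset.prod_ne_zero_iff.2 fun i _ => h1 i
    rw [h3, hr, h2, map_mul, map_mul, map_mul, map_mul, map_mul, map_mul, RatFunc.algebraMap_C]
    field_simp
  · refine ⟨0, ?_⟩
    rw [mul_zero, map_zero, twZ, Finset.sum_eq_zero, mul_zero]
    intro I hI
    rw [Finset.mem_filter] at hI
    obtain ⟨i, hi⟩ := hI.2.1
    exact absurd ⟨i, hI.2.2 i hi⟩ hex

/-- The divisor for `e ≥ 2`. -/
theorem dvd_tw {E : Type} [Fintype E] (μ c : E → ℕ) (e : ℕ) (he : 2 ≤ e) (x1 : E) (h1 : μ x1 = 1)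
    (hc : 0 < c x1) :
    ((X + 1) * ∏ x ∈ Finset.univ.filter (fun x => 0 < c x ∧ e ∣ c x),
      (C (c x : ℂ) * X + C (μ x : ℂ)) : ℂ[X]) ∣
      ∏ x : E, ∏ j ∈ Finset.range (c x), (C (c x : ℂ) * X + C ((μ x + j : ℕ) : ℂ)) := by
  classical
  have h2 : ((X + 1) * ∏ x ∈ Finset.univ.filter (fun x => 0 < c x ∧ e ∣ c x),
      (C (c x : ℂ) * X + C (μ x : ℂ)) : ℂ[X]) =
      ∏ x : E, ((if x = x1 then (X + 1) else 1) *
        if 0 < c x ∧ e ∣ c x then (C (c x : ℂ) * X + C (μ x : ℂ)) else 1) := by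
    rw [Finset.prod_mul_distrib, Finset.prod_ite_eq' Finset.univ x1, if_pos (Finset.mem_univ _),
      Finset.prod_filter]
  rw [h2]
  refine Finset.prod_dvd_prod_of_dvd _ _ fun x _ => ?_
  have hf : ∀ j, j < c x → (C (c x : ℂ) * X + C ((μ x + j : ℕ) : ℂ) : ℂ[X]) ∣
      ∏ j ∈ Finset.range (c x), (C (c x : ℂ) * X + C ((μ x + j : ℕ) : ℂ)) := fun j hj =>
    Finset.dvd_prod_of_mem (fun j : ℕ => (C (c x : ℂ) * X + C ((μ x + j : ℕ) : ℂ) : ℂ[X]))
      (Finset.mem_range.2 hj)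
  by_cases hx : x = x1
  · subst hx
    rw [if_pos rfl]
    have hc0 : (c x : ℂ) ≠ 0 := by exact_mod_cast hc.ne'
    have h3 : (C (c x : ℂ) * X + C ((μ x + (c x - 1) : ℕ) : ℂ) : ℂ[X]) = C (c x : ℂ) * (X + 1) := by
      rw [h1, show 1 + (c x - 1) = c x by omega]
      ring
    split_ifs with h4
    · have h5 : 2 ≤ c x := le_trans he (Nat.le_of_dvd hc h4.2)
      have h6 : ∏ j ∈ ({0, c x - 1} : Finset ℕ), (C (c x : ℂ) * X + C ((μ x + j : ℕ) : ℂ) : ℂ[X]) ∣
          ∏ j ∈ Finset.range (c x), (C (c x : ℂ) * X + C ((μ x + j : ℕ) : ℂ)) := by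
        refine Finset.prod_dvd_prod_of_subset _ _ _ ?_
        intro j hj
        simp only [Finset.mem_insert, Finset.mem_singleton] at hj
        rw [Finset.mem_range]
        omega
      rw [Finset.prod_pair (by omega), h3, add_zero] at h6
      refine dvd_trans ⟨C (c x : ℂ), ?_⟩ h6
      ring
    · have h6 := hf (c x - 1) (by omega)
      rw [h3] at h6
      rw [mul_one]
      exact (Dvd.intro_left _ rfl).trans h6
  · rw [if_neg hx, one_mul]
    split_ifs with h4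
    · simpa using hf 0 h4.1
    · exact one_dvd _

section quiver

variable {I α ρ E : Type} [Fintype I] [DecidableEq I] [Fintype E] [DecidableEq E]

theorem isP_app (Q : Qv I α ρ) (w w' : List α) (i j k : I) (h : IsP Q w j k) (h' : IsP Q w' i j) :
    IsP Q (w ++ w') i k := by
  induction w generalizing k with
  | nil =>
    have : j = k := h
    subst this
    exact h'
  | cons b w ih =>
    obtain ⟨h1, h2⟩ := h
    exact ⟨ih _ h1, h2⟩

theorem ex_first (Q : Qv I α ρ) (vt : E → I) (ω : α → ℕ) (d : ρ → ℕ) (e : TQ Q ω d ≃ E)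
    (he : ∀ τ, vt (e τ) = τ.1.2) (a : I → ℕ) (μ : E → ℕ) (hμ : ProfQ vt e μ) (x0 : E)
    (h0 : 0 < cE Q vt e a x0) : ∃ x1, μ x1 = 1 ∧ 0 < cE Q vt e a x1 := by
  classical
  obtain ⟨j, hj, hj2⟩ : ∃ j, 0 < a j ∧ 0 < nwq Q ω (vt x0) j (lev (e.symm x0)) := by
    by_contra hcon
    push Not at hcon
    refine h0.ne' ?_
    unfold cE NQ
    refine Finset.sum_eq_zero fun i _ => ?_
    rcases Nat.eq_zero_or_pos (a i) with h | h
    · rw [h, zero_mul]
    · rw [Nat.le_zero.1 (hcon i h), mul_zero]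
  unfold nwq at hj2
  obtain ⟨⟨⟨w, hw1, hw2⟩⟩, _⟩ := Nat.card_pos_iff.1 hj2
  obtain ⟨⟨⟨w0, l⟩, i0⟩, hx0⟩ : ∃ t : (List α × ρ) × I, (e.symm x0).1 = t := ⟨_, rfl⟩
  have hp := (e.symm x0).2
  have hi0 : vt x0 = i0 := by
    have := he (e.symm x0)
    rw [Equiv.apply_symm_apply, hx0] at this
    exact this
  rw [hx0] at hp
  have hl0 : lev (e.symm x0) = d l - (w0.map ω).sum := by
    unfold lev
    rw [hx0]
  rw [hl0] at hw2
  rw [hi0] at hw1
  have hτ : IsP Q (w ++ w0) (Q.ν l) j ∧ ((w ++ w0).map ω).sum < d l := by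
    refine ⟨isP_app Q w w0 _ _ _ hw1 hp.1, ?_⟩
    rw [List.map_append, List.sum_append]
    have h9 : (w0.map ω).sum < d l := hp.2
    omega
  obtain ⟨y, hy⟩ : ∃ y, y = e ⟨((w ++ w0, l), j), hτ⟩ := ⟨_, rfl⟩
  have hyj : vt y = j := by rw [hy, he]
  -- the element with the number one at the vertex `j`
  obtain ⟨x1, hx1, hx1'⟩ : ∃ x1, vt x1 = j ∧ μ x1 = 1 := by
    have hb : ∀ z : {y : E // vt y = j}, μ z.1 - 1 < Fintype.card {y : E // vt y = j} := by
      intro z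
      have h3 := (hμ.2.1 z.1).1
      have h4 : μ z.1 ≤ Fintype.card {y // vt y = vt z.1} := (hμ.2.1 z.1).2
      simp only [z.2] at h4
      omega
    have hinj : Function.Injective fun z : {y : E // vt y = j} =>
        (⟨μ z.1 - 1, hb z⟩ : Fin (Fintype.card {y : E // vt y = j})) := by
      intro z z' h
      have h3 := (hμ.2.1 z.1).1
      have h4 := (hμ.2.1 z'.1).1
      have h5 : μ z.1 - 1 = μ z'.1 - 1 := congrArg Fin.val h
      exact Subtype.ext (hμ.1 _ _ (z.2.trans z'.2.symm) (by omega))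
    have hsurj := ((Fintype.bijective_iff_injective_and_card _).2 ⟨hinj, by simp⟩).2
    have hpos : 0 < Fintype.card {y : E // vt y = j} := Fintype.card_pos_iff.2 ⟨⟨y, hyj⟩⟩
    obtain ⟨z, hz⟩ := hsurj ⟨0, hpos⟩
    have h3 := (hμ.2.1 z.1).1
    have h5 : μ z.1 - 1 = 0 := congrArg Fin.val hz
    exact ⟨z.1, z.2, by omega⟩
  refine ⟨x1, hx1', ?_⟩
  unfold cE NQ
  refine lt_of_lt_of_le ?_ (Finset.single_le_sum (f := fun i => a i * nwq Q ω (vt x1) i
    (lev (e.symm x1))) (fun i _ => Nat.zero_le _) (Finset.mem_univ j))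
  refine Nat.mul_pos hj ?_
  unfold nwq
  obtain ⟨⟨⟨w1, l1⟩, i1⟩, hx1e⟩ : ∃ t : (List α × ρ) × I, (e.symm x1).1 = t := ⟨_, rfl⟩
  have hp1 := (e.symm x1).2
  have hi1 : vt x1 = i1 := by
    have := he (e.symm x1)
    rw [Equiv.apply_symm_apply, hx1e] at this
    exact this
  rw [hx1e] at hp1
  have hl1 : lev (e.symm x1) = d l1 - (w1.map ω).sum := by
    unfold lev
    rw [hx1e]
  have h6 : (w1.map ω).sum < d l1 := hp1.2
  have h7 : IsP Q w1 (Q.ν l1) (vt x1) := by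
    rw [hi1]
    exact hp1.1
  rw [hl1]
  have hfin : Finite {w : List α // IsP Q w (vt x1) j ∧ (w.map ω).sum < d l1 - (w1.map ω).sum} := by
    refine Finite.of_injective (β := E) (fun w => e ⟨((w.1 ++ w1, l1), j), ?_, ?_⟩) ?_
    · exact isP_app Q w.1 w1 _ _ _ w.2.1 h7
    · show ((w.1 ++ w1).map ω).sum < d l1
      rw [List.map_append, List.sum_append]
      have := w.2.2
      omega
    · intro w w' h
      have h8 := congrArg (fun τ : TQ Q ω d => τ.1.1.1) (e.injective h)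
      exact Subtype.ext (List.append_cancel_right h8)
  refine Nat.card_pos_iff.2 ⟨⟨⟨[], ?_, ?_⟩⟩, hfin⟩
  · exact hx1
  · simpa using Nat.sub_pos_of_lt h6

end quiver

end Pool.Agent.K1H70.KT
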